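import Pool.Agent.helper11.TX.Spec
import Pool.Agent.helper85.FC.Main
import Pool.Agent.helper85.QC.ES

/-!
# Project TX, row GR: a quarter of the pairs of vertices is good
-/

namespace Pool.Agent.helper11.TX

open Finset Pool.Agent.helper85.FC Pool.Agent.helper85.QC

/-- the pigeonhole principle in a block. -/
lemma GR_pigeon {kc q t : ℕ} (hq : 0 < q) (ht : q ^ 2 * kc ≤ t) (g : Fin t → ℕ × ℤ) :
    ∃ e : Fin kc → Fin t, Function.Injective e ∧
      ∀ i j, (((g (e i)).1 : ℕ) : ZMod q) = (((g (e j)).1 : ℕ) : ZMod q) ∧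
        (((g (e i)).2 : ℤ) : ZMod q) = (((g (e j)).2 : ℤ) : ZMod q) := by
  classical
  have : NeZero q := ⟨hq.ne'⟩
  obtain ⟨y, hy⟩ := Fintype.exists_le_card_fiber_of_mul_le_card
    (f := fun s : Fin t => ((((g s).1 : ℕ) : ZMod q), (((g s).2 : ℤ) : ZMod q))) (n := kc) (by
      rw [Fintype.card_prod, ZMod.card, Fintype.card_fin, ← sq]
      exact ht)
  obtain ⟨T, hT, hTc⟩ := Finset.exists_subset_card_eq hy
  refine ⟨fun i => T.orderEmbOfFin hTc i, fun i j h => (T.orderEmbOfFin hTc).injective h,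
    fun i j => ?_⟩
  have h1 := (mem_filter.1 (hT (T.orderEmbOfFin_mem hTc i))).2
  have h2 := (mem_filter.1 (hT (T.orderEmbOfFin_mem hTc j))).2
  have h3 := h1.trans h2.symm
  exact ⟨congrArg Prod.fst h3, congrArg Prod.snd h3⟩

/-- at most one root. -/
lemma GR_root {p : ℕ} (hp : p.Prime) {a b : ℕ} {x y : ℤ} (hax : IsCoprime (a : ℤ) x)
    (hab : ((a : ℕ) : ZMod p) = ((b : ℕ) : ZMod p)) (hxy : ((x : ℤ) : ZMod p) = ((y : ℤ) : ZMod p))
    {n m : ℕ} (hn : n < p) (hm : m < p)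
    (h1 : (p : ℤ) ∣ (a : ℤ) * n + -x) (h2 : (p : ℤ) ∣ (b : ℤ) * m + -y) : n = m := by
  have := Fact.mk hp
  rw [← ZMod.intCast_zmod_eq_zero_iff_dvd] at h1 h2
  push_cast at h1 h2
  rw [← hab, ← hxy] at h2
  have ha : ((a : ℕ) : ZMod p) ≠ 0 := by
    intro h0
    rw [h0, zero_mul, zero_add, neg_eq_zero] at h1
    rw [ZMod.intCast_zmod_eq_zero_iff_dvd] at h1
    rw [ZMod.natCast_eq_zero_iff] at h0
    have h3 : (p : ℤ) ∣ a := by exact_mod_cast h0
    have h4 := hax.isUnit_of_dvd' h3 h1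
    rw [Int.isUnit_iff] at h4
    have h5 := hp.one_lt
    omega
  have h3 : ((a : ℕ) : ZMod p) * ((n : ℕ) : ZMod p) = ((a : ℕ) : ZMod p) * ((m : ℕ) : ZMod p) := by
    linear_combination h1 - h2
  have h4 := mul_left_cancel₀ ha h3
  rw [ZMod.natCast_eq_natCast_iff] at h4
  exact Nat.ModEq.eq_of_lt_of_lt h4 hn hm

/-- admissibility. -/
lemma GR_adm {W kc q : ℕ} (h30 : 30 ∣ W)
    (hq : ∀ p : ℕ, p.Prime → p ≤ 5 * kc → ¬ p ∣ W → p ∣ q) (F : Fin (5 * kc) → ℕ × ℤ)
    (hV : ∀ i, Vx W (F i))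
    (hcl : ∀ i j, cl i = cl j → (((F i).1 : ℕ) : ZMod q) = (((F j).1 : ℕ) : ZMod q) ∧
      (((F i).2 : ℤ) : ZMod q) = (((F j).2 : ℤ) : ZMod q))
    (p : ℕ) (hp : p.Prime) : ∃ n : ℕ, ∀ i, ¬ (p : ℤ) ∣ ((F i).1 : ℤ) * n + -(F i).2 := by
  by_cases hpW : p ∣ W
  · refine ⟨0, fun i hd => ?_⟩
    rw [Nat.cast_zero, mul_zero, zero_add, dvd_neg] at hd
    have h4 := (hV i).2.2.isUnit_of_dvd' hd (by exact_mod_cast hpW)
    rw [Int.isUnit_iff] at h4
    have h5 := hp.one_lt
    omega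
  · by_contra hcon
    push Not at hcon
    choose f hf using hcon
    by_cases hpk : p ≤ 5 * kc
    · have hpq := hq p hp hpk hpW
      have hle : (range p).card ≤ (univ : Finset (Fin 5)).card := by
        refine Finset.card_le_card_of_injOn (fun n => cl (f n))
          (fun _ _ => Finset.mem_coe.mpr (Finset.mem_univ _)) ?_
        intro x hx y hy hxy
        obtain ⟨h1, h2⟩ := hcl (f x) (f y) hxy
        refine GR_root hp (hV (f x)).2.1 ?_ ?_ (by simpa using hx) (by simpa using hy)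
          (hf x) (hf y)
        · rw [ZMod.natCast_eq_natCast_iff] at h1 ⊢
          exact h1.of_dvd hpq
        · rw [ZMod.intCast_eq_intCast_iff] at h2 ⊢
          exact h2.of_dvd (by exact_mod_cast hpq)
      rw [Finset.card_range, Finset.card_univ, Fintype.card_fin] at hle
      have h2 : ¬ p ∣ 30 := fun h => hpW (h.trans h30)
      interval_cases p
      · exact hp.ne_zero rfl
      · exact hp.ne_one rfl
      · exact h2 (by norm_num)
      · exact h2 (by norm_num)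
      · exact absurd hp (by norm_num)
      · exact h2 (by norm_num)
    · have hle : (range p).card ≤ (univ : Finset (Fin (5 * kc))).card := by
        refine Finset.card_le_card_of_injOn f
          (fun _ _ => Finset.mem_coe.mpr (Finset.mem_univ _)) ?_
        intro x hx y hy hxy
        exact GR_root hp (hV (f x)).2.1 (by rw [hxy]) (by rw [hxy]) (by simpa using hx)
          (by simpa using hy) (hf x) (hf y)
      rw [Finset.card_range, Finset.card_univ, Fintype.card_fin] at hle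
      omega

/-- different coprime pairs are not proportional. -/
lemma GR_prop {v w : ℕ × ℤ} (_hv : 0 < v.1) (hw : 0 < w.1) (h1 : IsCoprime (v.1 : ℤ) v.2)
    (h2 : IsCoprime (w.1 : ℤ) w.2) (h : (v.1 : ℤ) * w.2 = w.1 * v.2) : v = w := by
  have h3 : (v.1 : ℤ) ∣ w.1 := h1.dvd_of_dvd_mul_right (h ▸ Dvd.intro _ rfl)
  have h4 : (w.1 : ℤ) ∣ v.1 := h2.dvd_of_dvd_mul_right (h ▸ Dvd.intro _ rfl)
  have h5 : v.1 = w.1 := Nat.dvd_antisymm (by exact_mod_cast h3) (by exact_mod_cast h4)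
  rw [h5] at h
  have h6 := mul_left_cancel₀ (by exact_mod_cast hw.ne') h
  exact Prod.ext h5 h6.symm

/-- five blocks. -/
lemma GR_blocks (W : ℕ) (h30 : 30 ∣ W) : ∃ t : ℕ, ∀ f : Fin 5 × Fin t → ℕ × ℤ,
    Function.Injective f → (∀ x, Vx W (f x)) → ∃ x y, x.1 ≠ y.1 ∧ Rl (f x) (f y) := by
  classical
  obtain ⟨kc, hkc, hmain⟩ := cluster_main
  set q : ℕ := ∏ p ∈ (range (5 * kc + 1)).filter (fun p => p.Prime ∧ ¬ p ∣ W), p with hqdef
  have hq0 : 0 < q := Finset.prod_pos fun p hp => (mem_filter.1 hp).2.1.pos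
  have hq : ∀ p : ℕ, p.Prime → p ≤ 5 * kc → ¬ p ∣ W → p ∣ q := by
    intro p hp hpk hpW
    exact Finset.dvd_prod_of_mem (fun p => p)
      (mem_filter.2 ⟨mem_range.2 (by omega), hp, hpW⟩)
  refine ⟨q ^ 2 * kc, fun f hf hfV => ?_⟩
  have hpig : ∀ b : Fin 5, ∃ e : Fin kc → Fin (q ^ 2 * kc), Function.Injective e ∧
      ∀ i j, (((f (b, e i)).1 : ℕ) : ZMod q) = (((f (b, e j)).1 : ℕ) : ZMod q) ∧
        (((f (b, e i)).2 : ℤ) : ZMod q) = (((f (b, e j)).2 : ℤ) : ZMod q) := fun b =>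
    GR_pigeon hq0 le_rfl (fun s => f (b, s))
  choose e he hee using hpig
  set ix : Fin (5 * kc) → Fin 5 × Fin (q ^ 2 * kc) :=
    fun i => (cl i, e (cl i) (finProdFinEquiv.symm i).2) with hix
  have hixinj : Function.Injective ix := by
    intro i j h
    simp only [hix, Prod.mk.injEq] at h
    obtain ⟨h1, h2⟩ := h
    rw [h1] at h2
    have h3 := he _ h2
    apply finProdFinEquiv.symm.injective
    exact Prod.ext h1 h3
  set F : Fin (5 * kc) → ℕ × ℤ := fun i => f (ix i) with hF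
  have hFinj : Function.Injective F := hf.comp hixinj
  have hFV : ∀ i, Vx W (F i) := fun i => hfV _
  have hcl : ∀ i j, cl i = cl j → (((F i).1 : ℕ) : ZMod q) = (((F j).1 : ℕ) : ZMod q) ∧
      (((F i).2 : ℤ) : ZMod q) = (((F j).2 : ℤ) : ZMod q) := by
    intro i j hij
    simp only [hF, hix]
    rw [hij]
    exact hee _ _ _
  have hN := hmain (fun i => (F i).1) (fun i => -(F i).2) (fun i => (hFV i).1) (by
    intro i j hij h
    apply hij
    apply hFinj
    refine GR_prop (hFV i).1 (hFV j).1 (hFV i).2.1 (hFV j).2.1 ?_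
    linarith) (GR_adm h30 hq F hFV hcl)
  by_contra hcon
  push Not at hcon
  set T : Fin (5 * kc) × Fin (5 * kc) → Set ℕ := fun ij => {n : ℕ | cl ij.1 ≠ cl ij.2 ∧
    (((F ij.1).1 : ℤ) * n + -(F ij.1).2).toNat.Prime ∧
    (((F ij.2).1 : ℤ) * n + -(F ij.2).2).toNat.Prime} with hT
  have hTfin : ∀ ij, (T ij).Finite := by
    rintro ⟨i, j⟩
    by_cases hij : cl i = cl j
    · have : T (i, j) = ∅ := by
        ext n
        simp [hT, hij]
      rw [this]
      exact Set.finite_empty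
    · by_contra hinf
      refine hcon (ix i) (ix j) hij ?_
      unfold Rl
      refine Set.Infinite.mono ?_ hinf
      rintro n ⟨_, h1, h2⟩
      exact ⟨by simpa [sub_eq_add_neg] using h1, by simpa [sub_eq_add_neg] using h2⟩
  have hunion : (⋃ ij, T ij).Finite := Set.finite_iUnion hTfin
  obtain ⟨N, hN'⟩ := hunion.bddAbove
  obtain ⟨n, hn, i, j, hij, hi, hj⟩ := hN (N + 1)
  have h1 : n ∈ ⋃ ij, T ij := Set.mem_iUnion.mpr ⟨(i, j), hij, hi, hj⟩
  have h2 := hN' h1
  omega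

theorem GR : GR_stmt := by
  classical
  intro W hW h30 ε hε
  obtain ⟨t, ht⟩ := GR_blocks W h30
  obtain ⟨K, hK⟩ := es_quarter t hε
  refine ⟨K, fun S hS => ?_⟩
  have h := hK Rl S (fun x y h => h.mono fun n hn => ⟨hn.2, hn.1⟩)
    (fun f hf hfS => ht f hf fun x => hS _ (hfS x))
  convert h using 3

end Pool.Agent.helper11.TX
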